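import Pool.Agent.H51.MF.Base

/-! # Module CS: composition series in the wide subcategory -/

set_option linter.style.haveILetI false
set_option linter.unusedSectionVars false
set_option autoImplicit false

namespace Pool.Agent.H51.MF

open Module Pool.Agent.H51.T2

universe u v

variable {K : Type v} [Field K] {A : Type u} [Ring A] [Algebra K A]

theorem CS_max (f : TC K A) (Y : FM K A) (hY : InW f Y) (hn : Nontrivial Y) :
    ∃ T : Submodule A Y, T ≠ ⊤ ∧ InW f (Y.sub T) ∧ SimW f (Y.quot T) := by
  haveI : IsNoetherian A Y := isNoetherian_of_tower K inferInstance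
  obtain ⟨T, ⟨hT, hTW⟩, hmax⟩ := set_has_maximal_iff_noetherian.2 this
    {T : Submodule A Y | T ≠ ⊤ ∧ InW f (Y.sub T)} ⟨⊥, bot_ne_top, inW_bot Y⟩
  refine ⟨T, hT, hTW, inW_quot_of_sub hY hTW, Submodule.Quotient.nontrivial_iff.2 hT, ?_⟩
  intro R hR
  have h1 : InW f ((Y.quot T).quot R) := inW_quot_of_sub (inW_quot_of_sub hY hTW) hR
  have h2 : InW f (Y.quot (R.comap T.mkQ)) := inW_iso (quotQuot Y T R) h1
  have h3 : InW f (Y.sub (R.comap T.mkQ)) := inW_sub_of_quot hY h2
  have h4 : T ≤ R.comap T.mkQ := by
    intro x hx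
    rw [Submodule.mem_comap, Submodule.mkQ_apply, (Submodule.Quotient.mk_eq_zero T).2 hx]
    exact R.zero_mem
  have h5 : (R.comap T.mkQ).map T.mkQ = R :=
    Submodule.map_comap_eq_of_surjective (Submodule.mkQ_surjective T) R
  by_cases h6 : R.comap T.mkQ = ⊤
  · right
    rw [← h5, h6, Submodule.map_top, Submodule.range_mkQ]
  · left
    have h7 : ¬ T < R.comap T.mkQ := hmax _ ⟨h6, h3⟩
    have h8 : T = R.comap T.mkQ := by
      by_contra hne
      exact h7 (lt_of_le_of_ne h4 hne)
    rw [← h5, ← h8]
    exact Submodule.mkQ_map_self T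

theorem s_CS (K : Type v) [Field K] (A : Type u) [Ring A] [Algebra K A] : S_CS K A := by
  intro c f₁ η X hX hyp
  haveI : IsArtinian A X := isArtinian_of_tower K inferInstance
  have key : ∀ S : Submodule A X, InW f₁ (X.sub S) → 0 ≤ η ⬝ᵥ c.v (X.sub S) := by
    intro S
    induction S using WellFoundedLT.induction with
    | _ S ih =>
      intro hS
      rcases subsingleton_or_nontrivial (X.sub S) with hs | hn
      · rw [v_zero c (X.sub S), dotProduct_zero]
      · obtain ⟨T₀, hT, hTW, hN⟩ := CS_max f₁ (X.sub S) hS hn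
        set T : Submodule A X := T₀.map S.subtype with hTdef
        have e1 : c.v ((X.sub S).sub T₀) = c.v (X.sub T) := v_iso c (subSub X S T₀)
        have h1 : InW f₁ (X.sub T) := inW_iso (subSub X S T₀) hTW
        have h2 : T ≤ S := by
          rw [hTdef]
          exact Submodule.map_subtype_le S T₀
        have h3 : T < S := by
          refine lt_of_le_of_ne h2 ?_
          intro he
          apply hT
          rw [eq_top_iff]
          intro x _
          have hx : (x : X) ∈ T := by
            rw [he]
            exact x.2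
          rw [hTdef, Submodule.mem_map] at hx
          obtain ⟨y, hy, hyx⟩ := hx
          have : y = x := Subtype.ext hyx
          rwa [← this]
        have e2 := v_add c (X.sub S) T₀
        have h4 := hyp ((X.sub S).quot T₀) T S hN h2 h1 hS (by
          rw [← e1, e2]
          exact (add_sub_cancel_left _ _).symm)
        have h5 := ih T h3 h1
        rw [e2, dotProduct_add, e1]
        exact add_nonneg h5 h4
  have e3 : c.v (X.sub ⊤) = c.v X := v_iso c (Submodule.topEquiv (R := A) (M := X))
  have h6 := key ⊤ (inW_iso (X := X) (Y := X.sub ⊤) (Submodule.topEquiv (R := A) (M := X)).symm hX)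
  rwa [e3] at h6

end Pool.Agent.H51.MF
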