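import Pool.Agent.H51.MF.Base

/-! # Module DICH: a brick in a wide subcategory of rank at least two is in a smaller one -/

set_option linter.style.haveILetI false
set_option linter.unusedSectionVars false
set_option autoImplicit false

namespace Pool.Agent.H51.MF

open Module Pool.Agent.H51.T2

universe u v

variable {K : Type v} [Field K] {A : Type u} [Ring A] [Algebra K A]

/-- A `W`-submodule on which the functional is maximal is in the torsion class. -/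
theorem DICH_tb (c : Coo K A) (f₀ : TC K A) (ζ : Fin c.n → ℤ) (M : FM K A)
    (hF : FbN c f₀ ζ M) (U : Submodule A M) (hU : InW f₀ (M.sub U))
    (h0 : ζ ⬝ᵥ c.v (M.sub U) = 0) : TbN c f₀ ζ (M.sub U) := by
  intro S hS
  have h1 : InW f₀ ((M.sub U).sub S) := inW_sub_of_quot hU hS
  have h2 : InW f₀ (M.sub (S.map U.subtype)) := inW_iso (subSub M U S) h1
  have h3 := hF _ h2
  have h4 : c.v ((M.sub U).sub S) = c.v (M.sub (S.map U.subtype)) := v_iso c (subSub M U S)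
  have h5 := v_add c (M.sub U) S
  rw [h5, dotProduct_add, h4] at h0
  linarith

/-- The choice of the functional. -/
theorem DICH_zeta (hPP : S_PP K A) (hPOSF : S_POSF K A) (hFINV : S_FINV K A) (hI : Infinite K)
    (hA : FiniteDimensional K A) (hHR : HR K A) (c : Coo K A) (f₀ : TC K A) (M : FM K A)
    (hr : Rigid f₀.f) (hM : InW f₀ M) (hn : Nontrivial M) (hrk : 2 ≤ rk (WV c f₀)) :
    ∃ ζ : Fin c.n → ℤ, NZ (WV c f₀) ζ ∧ FbN c f₀ ζ M ∧ (∀ X, Bp f₀ M X → TbN c f₀ ζ X) ∧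
      ∃ U : Submodule A M, U ≠ ⊥ ∧ InW f₀ (M.sub U) ∧ ζ ⬝ᵥ c.v (M.sub U) = 0 := by
  obtain ⟨η, hNZ, hF, hB⟩ := hPP hI hA hHR c f₀ M hr hM (by omega)
  obtain ⟨p, hp, hInd⟩ := hPOSF hA c f₀ η hrk hNZ
  have hfin : {w : Fin c.n → ℤ | ∃ S : Submodule A M, S ≠ ⊥ ∧ InW f₀ (M.sub S) ∧
      w = c.v (M.sub S)}.Finite := by
    refine (hFINV c M).1.subset ?_
    rintro w ⟨S, _, _, hw⟩
    exact ⟨S, hw⟩
  have hne : {w : Fin c.n → ℤ | ∃ S : Submodule A M, S ≠ ⊥ ∧ InW f₀ (M.sub S) ∧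
      w = c.v (M.sub S)}.Nonempty := by
    refine ⟨c.v (M.sub ⊤), ⊤, ?_, ?_, rfl⟩
    · exact top_ne_bot
    · exact inW_iso (X := M) (Y := M.sub ⊤) (Submodule.topEquiv (R := A) (M := M)).symm hM
  obtain ⟨w₀, hw₀, hmin⟩ := Set.exists_min_image _
    (fun w : Fin c.n → ℤ => ((-(η ⬝ᵥ w) : ℤ) : ℚ) / ((p ⬝ᵥ w : ℤ) : ℚ)) hfin hne
  obtain ⟨U, hUb, hUW, hU⟩ := hw₀
  have hpos : ∀ S : Submodule A M, S ≠ ⊥ → 0 < p ⬝ᵥ c.v (M.sub S) := by
    intro S hS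
    exact hp _ ((Submodule.nontrivial_iff_ne_bot).2 hS)
  have hp0 : 0 < p ⬝ᵥ w₀ := by
    rw [hU]
    exact hpos U hUb
  have he0 : η ⬝ᵥ w₀ ≤ 0 := by
    rw [hU]
    exact hF U hUW
  refine ⟨(p ⬝ᵥ w₀) • η + (-(η ⬝ᵥ w₀)) • p, ?_, ?_, ?_, U, hUb, hUW, ?_⟩
  · by_contra hcon
    unfold NZ at hcon
    push Not at hcon
    have := (hInd (p ⬝ᵥ w₀) (-(η ⬝ᵥ w₀)) hcon).1
    omega
  · intro S hS
    by_cases hSb : S = ⊥
    · have : Subsingleton (M.sub S) := by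
        subst hSb
        infer_instance
      rw [v_zero c (M.sub S), dotProduct_zero]
    · have h1 := hmin (c.v (M.sub S)) ⟨S, hSb, hS, rfl⟩
      have h2 := hpos S hSb
      have hp0' : (0 : ℚ) < ((p ⬝ᵥ w₀ : ℤ) : ℚ) := by exact_mod_cast hp0
      have h2' : (0 : ℚ) < ((p ⬝ᵥ c.v (M.sub S) : ℤ) : ℚ) := by exact_mod_cast h2
      rw [div_le_div_iff₀ hp0' h2'] at h1
      have h3 : (-(η ⬝ᵥ w₀)) * (p ⬝ᵥ c.v (M.sub S)) ≤ (-(η ⬝ᵥ c.v (M.sub S))) * (p ⬝ᵥ w₀) := by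
        exact_mod_cast h1
      rw [add_dotProduct, smul_dotProduct, smul_dotProduct, smul_eq_mul, smul_eq_mul]
      nlinarith
  · intro X hX S hS
    have h1 := hB X hX S hS
    have h2 : 0 ≤ p ⬝ᵥ c.v (X.quot S) := by
      rcases subsingleton_or_nontrivial (X.quot S) with hs | hn'
      · rw [v_zero c (X.quot S), dotProduct_zero]
      · exact le_of_lt (hp _ hn')
    rw [add_dotProduct, smul_dotProduct, smul_dotProduct, smul_eq_mul, smul_eq_mul]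
    have h3 : 0 ≤ (p ⬝ᵥ w₀) * (η ⬝ᵥ c.v (X.quot S)) := mul_nonneg hp0.le h1
    have h4 : 0 ≤ (-(η ⬝ᵥ w₀)) * (p ⬝ᵥ c.v (X.quot S)) := mul_nonneg (by omega) h2
    exact add_nonneg h3 h4
  · rw [← hU, add_dotProduct, smul_dotProduct, smul_dotProduct, smul_eq_mul, smul_eq_mul]
    ring

theorem s_DICH (K : Type v) [Field K] (A : Type u) [Ring A] [Algebra K A] (hPP : S_PP K A)
    (hREAL : S_REAL K A) (hNUM : S_NUM K A) (hLSUB : S_LSUB K A) (hPOSF : S_POSF K A)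
    (hFINV : S_FINV K A) : S_DICH K A := by
  intro hI hA hHR c f₀ M hr hM hBr hrk
  haveI := hBr.1
  obtain ⟨ζ, hNZ, hF, hB, U₀, hU₀, hU₀W, hU₀0⟩ :=
    DICH_zeta hPP hPOSF hFINV hI hA hHR c f₀ M hr hM hBr.1 hrk
  obtain ⟨g, hg⟩ := hREAL hI hHR c f₀ ζ hr
  refine ⟨g, ζ, hg, hNZ, ?_⟩
  obtain ⟨U, hUT, hUmax⟩ := hLSUB (f₀.add g) M
  have hUT' := tt_addTC.1 hUT
  have hUW : InW f₀ (M.sub U) := inW_sub_of_tt hM hUT'.1
  have h1 : TT g.f (M.sub U₀) :=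
    (hNUM c f₀ g ζ _ hr hg hU₀W).1.2 (DICH_tb c f₀ ζ M hF U₀ hU₀W hU₀0)
  have h2 : U₀ ≤ U := hUmax U₀ (tt_addTC.2 ⟨hU₀W.1, h1⟩)
  have h3 : U ≠ ⊥ := by
    intro h
    rw [h] at h2
    exact hU₀ (le_bot_iff.1 h2)
  have h4 : U = ⊤ := by
    by_contra hne
    have hQW : InW f₀ (M.quot U) := inW_quot_of_sub hM hUW
    by_cases hall : ∀ φ : (M.quot U) →ₗ[A] M, φ = 0
    · have h5 : TbN c f₀ ζ (M.quot U) := hB _ ⟨hQW, hall⟩
      have h6 : TT g.f (M.quot U) := (hNUM c f₀ g ζ _ hr hg hQW).1.2 h5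
      have h7 : TT (f₀.add g).f M := tt_ext hUT (tt_addTC.2 ⟨hQW.1, h6⟩)
      have h8 : TT (f₀.add g).f (M.sub ⊤) := by
        have h9 := tt_addTC.1 h7
        exact tt_addTC.2 ⟨TT.congr h9.1 (Submodule.topEquiv (R := A) (M := M)).symm,
          TT.congr h9.2 (Submodule.topEquiv (R := A) (M := M)).symm⟩
      exact hne (top_le_iff.1 (hUmax ⊤ h8))
    · push Not at hall
      obtain ⟨φ, hφ⟩ := hall
      have h5 : φ ∘ₗ U.mkQ ≠ 0 := by
        intro h0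
        apply hφ
        ext x
        exact LinearMap.congr_fun h0 x
      have h6 := (hBr.2 _ h5).1
      apply h3
      rw [Submodule.eq_bot_iff]
      intro x hx
      have h7 : (φ ∘ₗ U.mkQ) x = (φ ∘ₗ U.mkQ) 0 := by
        rw [map_zero, LinearMap.comp_apply, Submodule.mkQ_apply,
          (Submodule.Quotient.mk_eq_zero U).2 hx, map_zero]
      exact h6 h7
  refine inW_addTC.2 ⟨hM, ?_, ?_⟩
  · rw [h4] at hUT'
    exact TT.congr hUT'.2 (Submodule.topEquiv (R := A) (M := M))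
  · exact (hNUM c f₀ g ζ M hr hg hM).2.2 hF

end Pool.Agent.H51.MF
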